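import Pool.Agent.Y254.HK.StmG
import Pool.Agent.Y210.HK.Start

/-!
# HKG-START: the start of the iteration with a general coefficient of the deficiency
-/

set_option autoImplicit false

open Finset
open scoped Classical

namespace Pool.Agent.Y761.HK
open Pool.Agent.W904.AK Pool.Agent.W46.HD Pool.Agent.W46.HM Pool.Agent.Y244.HM Pool.Agent

/-- One step of the iteration. -/
theorem stepG {d : ℕ} {G : ℝ} (hG9 : 9 ≤ G) (hdG : (d : ℝ) ≤ G) {b b' : ℝ}
    (hb0 : 167 / 100 ≤ b) (hb2 : b ≤ 2)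
    (h : AllT d b G) (hb' : b - (b ^ 3 - 4 * b + 2) / 8 ≤ b') (h0 : 0 ≤ b ^ 3 - 4 * b + 2) :
    AllT d b' G := by
  set e : ℝ := (G + 1 / 1000) / (1 - 1 / 1000) with he
  have he' : e * (999 / 1000) = G + 1 / 1000 := by
    rw [he]
    norm_num
  have he9 : G ≤ e := by linarith
  have he0 : 0 ≤ e := by linarith
  have hT : AllT d b e := Pool.Agent.W349.HM.AllT_mono W976.HD.PSI le_rfl he9 h
  have hmax : max e (((d : ℝ) + 1 / 1000) / (1 - 1 / 1000)) = e := by
    refine max_eq_left ?_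
    rw [he]
    exact div_le_div_of_nonneg_right (by linarith) (by norm_num)
  have h3 := tom d b e (1 / 1000) (by linarith) (by norm_num) (by norm_num) he0 hT
  rw [hmax] at h3
  have h4 := stepm d b e (by linarith) he0 h3
  have hD : 0 < b ^ 2 + 3 * b - 2 := by nlinarith
  have hD8 : b ^ 2 + 3 * b - 2 ≤ 8 := by nlinarith
  refine Pool.Agent.W349.HM.AllT_mono W976.HD.PSI ?_ ?_ h4
  · rw [div_le_iff₀ hD]
    have e1 : (b - (b ^ 3 - 4 * b + 2) / 8) * (b ^ 2 + 3 * b - 2) ≤ b' * (b ^ 2 + 3 * b - 2) :=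
      mul_le_mul_of_nonneg_right hb' hD.le
    have e2 : (b ^ 3 - 4 * b + 2) * (b ^ 2 + 3 * b - 2) ≤ (b ^ 3 - 4 * b + 2) * 8 :=
      mul_le_mul_of_nonneg_left hD8 h0
    nlinarith
  · rw [div_le_iff₀ hD]
    have e3 : e = G + (G + 1) / 999 := by linarith
    have e4 : 0 ≤ b ^ 2 - 1 - (3 * b - 1) / 999 := by nlinarith
    have e5 := mul_le_mul_of_nonneg_right hG9 e4
    rw [e3]
    nlinarith

/-- All exponents above the root of `x ^ 3 - 4 x + 2`. -/
theorem allT_alphaG {d : ℕ} {G : ℝ} (hG9 : 9 ≤ G) (hdG : (d : ℝ) ≤ G) {c : ℝ} (hc1 : 1 < c)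
    (hc : 0 < c ^ 3 - 4 * c + 2) : AllT d c G := by
  have h2 : AllT d 2 G :=
    Pool.Agent.W349.HM.AllT_mono W976.HD.PSI le_rfl (by linarith) (baset d)
  have hc167 : 167 / 100 ≤ c := by
    by_contra h
    push Not at h
    nlinarith [mul_pos (sub_pos.2 hc1) (sub_pos.2 h)]
  by_cases hc2 : 2 ≤ c
  · exact Pool.Agent.W349.HM.AllT_mono W976.HD.PSI hc2 le_rfl h2
  push Not at hc2
  obtain ⟨η, hη⟩ : ∃ η : ℝ, η = (c ^ 3 - 4 * c + 2) / 8 := ⟨_, rfl⟩
  have hη0 : 0 < η := by rw [hη]; positivity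
  have key : ∀ k : ℕ, AllT d (max c (2 - k * η)) G := by
    intro k
    induction k with
    | zero =>
      have : max c (2 - ((0 : ℕ) : ℝ) * η) = 2 := by
        rw [Nat.cast_zero, zero_mul, sub_zero]
        exact max_eq_right hc2.le
      rw [this]
      exact h2
    | succ k ih =>
      by_cases hk : 2 - (k : ℝ) * η ≤ c
      · rw [max_eq_left hk] at ih
        refine Pool.Agent.W349.HM.AllT_mono W976.HD.PSI (le_max_left _ _) le_rfl ih
      · push Not at hk
        rw [max_eq_right hk.le] at ih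
        set b : ℝ := 2 - (k : ℝ) * η with hb
        have hb2 : b ≤ 2 := by
          have : 0 ≤ (k : ℝ) * η := by positivity
          linarith
        have hmono : c ^ 3 - 4 * c + 2 ≤ b ^ 3 - 4 * b + 2 := by
          nlinarith [mul_nonneg (sub_nonneg.2 hk.le) (by nlinarith : 0 ≤ b ^ 2 + b * c + c ^ 2 - 4)]
        refine stepG hG9 hdG (by linarith) hb2 ih ?_ (by linarith)
        refine le_trans ?_ (le_max_right _ _)
        push_cast
        have : η ≤ (b ^ 3 - 4 * b + 2) / 8 := by rw [hη]; linarith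
        linarith
  obtain ⟨k, hk⟩ := exists_nat_gt ((2 - c) / η)
  have h3 := key k
  have h4 : 2 - (k : ℝ) * η ≤ c := by
    rw [div_lt_iff₀ hη0] at hk
    linarith
  rwa [max_eq_left h4] at h3

/-- HKG-START -/
theorem t_startg : Pool.Agent.Y254HK.S_STARTG := by
  intro d c G hG9 hdG hc1 hc ε hε
  have hT : AllT d c G := allT_alphaG hG9 hdG hc1 hc
  have hd0 : (0 : ℝ) ≤ d := Nat.cast_nonneg d
  have hG0 : (0 : ℝ) ≤ G := by linarith
  set e : ℝ := ε / (2 * (1 + G + ε)) with he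
  have hden : 0 < 2 * (1 + G + ε) := by positivity
  have he0 : 0 < e := by positivity
  have hee : e * (1 + G + ε) = ε / 2 := by
    rw [he]
    field_simp
  have he1 : e < 1 := by
    rw [he, div_lt_one hden]
    linarith
  obtain ⟨C, hC0, hC⟩ := tom d c G e (by linarith) he0 he1 hG0 hT
  have hg : max G (((d : ℝ) + e) / (1 - e)) ≤ G + ε := by
    refine max_le (by linarith) ?_
    rw [div_le_iff₀ (by linarith)]
    nlinarith
  refine ⟨C, hC0, fun n Ω _ A D hF p hp => ?_⟩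
  have h1 := hC n Ω A D hF p hp
  have h2 : 0 ≤ lam p := (W976.HD.PSI Ω n p hF.pos hp).1
  have h3 := Pool.Agent.Y210.HK.lam_le hp
  have h4 : max G (((d : ℝ) + e) / (1 - e)) * lam p ≤ (G + ε) * lam p :=
    mul_le_mul_of_nonneg_right hg h2
  have h5 : ε * lam p ≤ ε * Real.log n := mul_le_mul_of_nonneg_left h3 hε.le
  linarith

end Pool.Agent.Y761.HK
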